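import Pool.Agent.H10.MpcC

namespace Pool.Agent.Results.MP_9c8b61_co.Superlinear
open Pool.Agent.H10.Mpc

theorem result : ∃ α : ℝ, 0 < α ∧ ∃ A : ℕ → Finset E,
    (∀ n, (A n).card = n ∧ GenPos (A n) ∧ IsDense α (A n)) ∧
    Filter.Tendsto (fun n : ℕ => (mc (A n) : ℝ) / n) Filter.atTop Filter.atTop :=
  ⟨8, by norm_num, main⟩

end Pool.Agent.Results.MP_9c8b61_co.Superlinear
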